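import Pool.Agent.helper47.SJ.Defs3
import Pool.Agent.helper39.HC.TateDefs

/-!
# Project sj, part TQ: Tate classes on products of new Jacobians and CM tori: definitions

`T = W ⧸ Lam`; `V_l(T) = ℚ_l ⊗ Lam`, `H_k(T, ℚ_l) = Λ^k V_l(T)`. A representation `ρ` of the absolute Galois group of the
number field `F` on `V_l(T)` has the properties of the representation on the Tate module of `T` if (`IsGal`) it
respects the factors, commutes with `ζ_{d_i}`, and the Frobenius elements at almost all primes `P` act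
* on the CM torus `B` as in the theorem of Shimura and Taniyama (`IsFrb`, `IsEnd`),
* on the determinant of `V_l(A_i)` over `ℚ_l ⊗ ℚ(ζ_{d_i})` as an element `Q_i(ζ_{d_i})` of `ℤ[ζ_{d_i}]` with absolute values
  `N(P)^(n_i / 2)` and the prime ideal decomposition of an algebraic Hecke character with the Hodge numbers of
  `A_i` (`IsDetFrb`, `HasDet`).
-/

namespace Pool.Agent.SJ

open scoped ComplexConjugate TensorProduct NumberField
open Pool.Agent.HC Pool.Agent.HC.SJ Pool.Agent.HC.Tate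
open NumberField

noncomputable section

variable {W : Type} [NormedAddCommGroup W] [NormedSpace ℂ W]

/-! ## Classes with coefficients in `ℤ`, `ℝ`, `ℚ_l` -/

/-- `V_l(W ⧸ Lam) = ℚ_l ⊗ Lam` -/
abbrev VQ (Lam : AddSubgroup W) (l : ℕ) [Fact l.Prime] : Type := ℚ_[l] ⊗[ℤ] Lam

/-- the element `1 ⊗ w` -/
def jQ (Lam : AddSubgroup W) (l : ℕ) [Fact l.Prime] (w : Lam) : VQ Lam l := (1 : ℚ_[l]) ⊗ₜ[ℤ] w

/-- the map of exterior algebras induced by an additive map `Lam → V` -/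
def exMap {V : Type} (R : Type) [CommRing R] [AddCommGroup V] [Module R V] {Lam : AddSubgroup W}
    (j : Lam →+ V) : ExteriorAlgebra ℤ Lam →ₐ[ℤ] ExteriorAlgebra R V :=
  ExteriorAlgebra.lift ℤ ⟨((ExteriorAlgebra.ι R).toAddMonoidHom.comp j).toIntLinearMap,
    fun v => ExteriorAlgebra.ι_sq_zero (R := R) (j v)⟩

/-- `H_*(W ⧸ Lam, ℤ) = Λ Lam → H_*(W ⧸ Lam, ℝ) = Λ W` -/
def toR (Lam : AddSubgroup W) : ExteriorAlgebra ℤ Lam →ₐ[ℤ] ExteriorAlgebra ℝ W :=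
  exMap ℝ Lam.subtype

/-- `H_*(W ⧸ Lam, ℤ) → H_*(W ⧸ Lam, ℚ_l)` -/
def toQ (Lam : AddSubgroup W) (l : ℕ) [Fact l.Prime] :
    ExteriorAlgebra ℤ Lam →ₐ[ℤ] ExteriorAlgebra ℚ_[l] (VQ Lam l) :=
  exMap ℚ_[l] (TensorProduct.mk ℤ ℚ_[l] Lam 1).toAddMonoidHom

/-- `Ξ` is a `ℚ_l`-linear combination of integral classes which are algebraic (`Alg`) -/
def AlgQ (Lam : AddSubgroup W) (l : ℕ) [Fact l.Prime]
    (Ξ : ExteriorAlgebra ℚ_[l] (VQ Lam l)) : Prop :=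
  Ξ ∈ Submodule.span ℚ_[l] {y | ∃ c : ExteriorAlgebra ℤ Lam, Alg W Lam (toR Lam c) ∧
    y = toQ Lam l c}

/-- the map `V_l(W ⧸ Lam) → V_l(W' ⧸ Lam')` induced by an additive map of the lattices -/
def indQ {W' : Type} [NormedAddCommGroup W'] [NormedSpace ℂ W'] {Lam : AddSubgroup W}
    {Lam' : AddSubgroup W'} (l : ℕ) [Fact l.Prime] (f : Lam →+ Lam') :
    VQ Lam l →ₗ[ℚ_[l]] VQ Lam' l := f.toIntLinearMap.baseChange ℚ_[l]

/-- restriction of a map of vector spaces to the lattices -/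
def resL {W' : Type} [NormedAddCommGroup W'] [NormedSpace ℂ W'] {Lam : AddSubgroup W}
    {Lam' : AddSubgroup W'} (p : W →ₗ[ℂ] W') (h : ∀ w ∈ Lam, p w ∈ Lam') : Lam →+ Lam' where
  toFun w := ⟨p w, h w w.2⟩
  map_zero' := by simp
  map_add' w w' := by simp

/-- `ℤ_l ⊗ Lam` in `ℚ_l ⊗ Lam` -/
def latQ (Lam : AddSubgroup W) (l : ℕ) [Fact l.Prime] : Submodule ℤ_[l] (VQ Lam l) :=
  Submodule.span ℤ_[l] (Set.range (jQ Lam l))

/-! ## Determinants over `ℚ_l ⊗ ℚ(ζ_d)` -/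

section det
variable {d : ℕ} {n : ℕ} {μ : Fin (n + 1) → ℕ} {a : Fin (n + 1) → ℂ} {L : AddSubgroup (Idx d μ → ℂ)}

/-- `ζ_d` on `V_l(A_a)` -/
def ztQ (h : ∀ w ∈ L, zact d μ (zt d) w ∈ L) (l : ℕ) [Fact l.Prime] : VQ L l →ₗ[ℚ_[l]] VQ L l :=
  indQ l (resL (zact d μ (zt d)) h)

/-- `g` commutes with `ζ_d` and its determinant over `ℚ_l ⊗ ℚ(ζ_d)` is `Q(ζ_d)`: it acts as `Q(c)` on the determinants of
`n` eigenfunctionals of `ζ_d` with eigenvalue `c` -/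
structure HasDet (h : ∀ w ∈ L, zact d μ (zt d) w ∈ L) (l : ℕ) [Fact l.Prime]
    (g : VQ L l →ₗ[ℚ_[l]] VQ L l) (Q : Polynomial ℤ) : Prop where
  comm : ∀ v, g (ztQ h l v) = ztQ h l (g v)
  det : ∀ (c : AlgebraicClosure ℚ_[l]) (z : Fin n → (VQ L l →ₗ[ℚ_[l]] AlgebraicClosure ℚ_[l])),
    (∀ k v, z k (ztQ h l v) = c * z k v) → ∀ v : Fin n → VQ L l,
    (Matrix.of fun k j => z k (g (v j))).det =
      Polynomial.aeval c Q * (Matrix.of fun k j => z k (v j)).det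

end det

/-- the dimension of the eigenspace of `ζ_d` on `Lie A_a` with eigenvalue `x` -/
def hdim (d : ℕ) {n : ℕ} (μ : Fin (n + 1) → ℕ) (x : ℂ) : ℕ :=
  Nat.card {s : Idx d μ // zt d ^ (s.r : ℕ) = x}

/-- `Q(ζ_d)` is, up to roots of unity, the value at the prime `P` of the Hecke character of the determinant of
`H_1(A_a)` over `ℚ(ζ_d)`: absolute values and prime ideal decomposition
`(Q(x)) = ∏ (σ⁻¹ P)^(dim of the eigenspace of Lie A_a with eigenvalue σ(x))` -/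
structure IsDetFrb (d : ℕ) {n : ℕ} (μ : Fin (n + 1) → ℕ) {F : Type} [Field F] [NumberField F]
    (ι : F →+* ℂ) (P : Ideal (𝓞 F)) (Q : Polynomial ℤ) : Prop where
  weil : ∀ x : ℂ, IsPrimitiveRoot x d →
    Polynomial.aeval x Q * conj (Polynomial.aeval x Q) = (Ideal.absNorm P : ℂ) ^ n
  st : ∀ x : 𝓞 F, IsPrimitiveRoot x d → Ideal.span {Polynomial.aeval x Q} =
    ∏ σ : F ≃ₐ[ℚ] F, P.comap (RingOfIntegers.mapRingHom (σ : F →+* F)) ^ hdim d μ (ι (σ (x : F)))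

/-- the endomorphism `f` of `V_l(B)` is multiplication by `t ∈ ∏ K_j` -/
def IsEnd {Lam : AddSubgroup W} (C : CMData W Lam) (l : ℕ) [Fact l.Prime] (t : ∀ j, C.K j)
    (f : VQ Lam l →ₗ[ℚ_[l]] VQ Lam l) : Prop :=
  ∀ (w w' : Lam) (m : ℕ), IsMul C t (m • (w : W)) (w' : W) → f (m • jQ Lam l w) = jQ Lam l w'

/-! ## Galois representations -/

/-- the Galois representations on `V_l` of the factors and of the torus: the conditions (i) they respect the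
product structure, (ii) commute with `ζ_{d_i}`, (iii) the Frobenius elements at almost all primes act on `V_l(B)`
and on the determinants of the `V_l(A_i)` as described above -/
structure IsGal {Lam : AddSubgroup W} (D : SJPow W Lam) {F : Type} [Field F] [NumberField F]
    (ι : F →+* ℂ) (l : ℕ) [Fact l.Prime] (ρ : Gal F →* Module.End ℚ_[l] (VQ Lam l))
    (ρA : ∀ i, Gal F →* Module.End ℚ_[l] (VQ (D.L i) l))
    (ρB : Gal F →* Module.End ℚ_[l] (VQ D.LB l)) : Prop where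
  facA : ∀ σ i c v, ρ σ (indQ l (resL (D.p i c) (D.plat i c)) v) =
    indQ l (resL (D.p i c) (D.plat i c)) (ρA i σ v)
  facB : ∀ σ v, ρ σ (indQ l (resL D.q D.qlat) v) = indQ l (resL D.q D.qlat) (ρB σ v)
  comm : ∀ σ i v, ρA i σ (ztQ (D.jac i).stab l v) = ztQ (D.jac i).stab l (ρA i σ v)
  frob : AlmostAll F fun P => ∃ (t : ∀ j, D.cm.K j) (Q : Fin D.k → Polynomial ℤ),
    IsFrb D.cm ι P 1 t ∧ (∀ i, IsDetFrb (D.d i) (D.μ i) ι P (Q i)) ∧
    ∀ σ : Gal F, IsFrobOver P σ → IsEnd D.cm l t (ρB σ) ∧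
      ∀ i, HasDet (D.jac i).stab l (ρA i σ) (Q i)

/-- Tate classes in `H_{2a}(T, ℚ_l)` over a finite extension of `F`: for some `N > 0` the group acts on
`Ξ` by `σ^N Ξ = χ(σ)^(aN) Ξ` -/
def PotTate {Lam : AddSubgroup W} {F : Type} [Field F] [NumberField F] {l : ℕ} [Fact l.Prime]
    (ρ : Gal F →* Module.End ℚ_[l] (VQ Lam l)) (a : ℕ)
    (Ξ : ExteriorAlgebra ℚ_[l] (VQ Lam l)) : Prop :=
  ∃ N : ℕ, 0 < N ∧ ∀ σ : Gal F, ExteriorAlgebra.map (ρ σ ^ N) Ξ = chi l σ ^ (a * N) • Ξ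

/-! ## (A) The determinant part -/

/-- `Ξ` is invariant under the groups `SL_{n_i}(ℚ_l ⊗ ℚ(ζ_{d_i}))`, acting on the factors `A_i^{m_i}`
(diagonally if `m_i > 1`) -/
def DetPart {Lam : AddSubgroup W} (D : SJPow W Lam) (l : ℕ) [Fact l.Prime]
    (Ξ : ExteriorAlgebra ℚ_[l] (VQ Lam l)) : Prop :=
  ∀ (g : ∀ i, Module.End ℚ_[l] (VQ (D.L i) l)) (G : Module.End ℚ_[l] (VQ Lam l)),
    (∀ i, HasDet (D.jac i).stab l (g i) 1) →
    (∀ i c v, G (indQ l (resL (D.p i c) (D.plat i c)) v) =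
      indQ l (resL (D.p i c) (D.plat i c)) (g i v)) →
    (∀ v, G (indQ l (resL D.q D.qlat) v) = indQ l (resL D.q D.qlat) v) →
    ExteriorAlgebra.map G Ξ = Ξ

/-- THEOREM A. Tate classes in the determinant part of the homology of products of new Jacobians
(`m_i = 1`) and a CM torus are algebraic. -/
def TateDet_stmt (C : (d : ℕ) → (n : ℕ) → (Fin (n + 1) → ℕ) → Prop) : Prop :=
  ∀ (W : Type) [NormedAddCommGroup W] [NormedSpace ℂ W] [FiniteDimensional ℂ W]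
    (Lam : AddSubgroup W), IsLattice Lam → ∀ D : SJPow W Lam, D.All C → (∀ i, D.m i = 1) →
  ∀ (F : Type) [Field F] [NumberField F] [IsGalois ℚ F] (ι : F →+* ℂ), Split D.cm ι →
    (∀ i, ∃ x : F, ι x = zt (D.d i)) →
  ∀ (l : ℕ) [Fact l.Prime] (ρ : Gal F →* Module.End ℚ_[l] (VQ Lam l))
    (ρA : ∀ i, Gal F →* Module.End ℚ_[l] (VQ (D.L i) l))
    (ρB : Gal F →* Module.End ℚ_[l] (VQ D.LB l)), IsGal D ι l ρ ρA ρB →
  ∀ (a : ℕ) (Ξ : ExteriorAlgebra ℚ_[l] (VQ Lam l)), Ξ ∈ (⋀[ℚ_[l]]^(2 * a) (VQ Lam l) :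
      Submodule ℚ_[l] (ExteriorAlgebra ℚ_[l] (VQ Lam l))) →
    DetPart D l Ξ → PotTate ρ a Ξ → AlgQ Lam l Ξ

/-! ## (B) All classes -/

/-- the `ℚ_l`-points of the special unitary group `SU(H_1(A_a))` over `ℚ(ζ_d)`: the `g` with determinant one which
fix the class of the curve `C_a` -/
structure IsSUQ {d : ℕ} {n : ℕ} {μ : Fin (n + 1) → ℕ} (a : Fin (n + 1) → ℂ)
    {L : AddSubgroup (Idx d μ → ℂ)} (h : ∀ w ∈ L, zact d μ (zt d) w ∈ L) (l : ℕ) [Fact l.Prime]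
    (g : VQ L l →ₗ[ℚ_[l]] VQ L l) : Prop where
  det : HasDet h l g 1
  curve : ∀ c : ExteriorAlgebra ℤ L, IsClass (clC d μ a) (toR L c) →
    ExteriorAlgebra.map g (toQ L l c) = toQ L l c

/-- further conditions satisfied by the Galois representation on the Tate modules: it respects the lattice
`T_l(A_i) = ℤ_l ⊗ L_i`; the class of the curve is integral and a Tate class -/
structure IsGalT {Lam : AddSubgroup W} (D : SJPow W Lam) {F : Type} [Field F] [NumberField F]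
    (l : ℕ) [Fact l.Prime] (ρA : ∀ i, Gal F →* Module.End ℚ_[l] (VQ (D.L i) l)) : Prop where
  lat : ∀ σ i, ∀ v ∈ latQ (D.L i) l, ρA i σ v ∈ latQ (D.L i) l
  curve : ∀ i, ∃ c : ExteriorAlgebra ℤ (D.L i), IsClass (clC (D.d i) (D.μ i) (D.a i)) (toR (D.L i) c) ∧
    ∀ σ, ExteriorAlgebra.map (ρA i σ) (toQ (D.L i) l c) = chi l σ • toQ (D.L i) l c

/-- the image of the Galois group contains an open subgroup of `∏ SU(H_1(A_i))(ℚ_l)` (Mumford-Tate
conjecture for the `A_i`) -/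
def BigImage {Lam : AddSubgroup W} (D : SJPow W Lam) {F : Type} [Field F] [NumberField F]
    (l : ℕ) [Fact l.Prime] (ρA : ∀ i, Gal F →* Module.End ℚ_[l] (VQ (D.L i) l))
    (ρB : Gal F →* Module.End ℚ_[l] (VQ D.LB l)) : Prop :=
  ∃ M : ℕ, ∀ g : ∀ i, Module.End ℚ_[l] (VQ (D.L i) l),
    (∀ i, IsSUQ (D.a i) (D.jac i).stab l (g i)) →
    (∀ i, ∀ v ∈ latQ (D.L i) l, ∃ v' ∈ latQ (D.L i) l, g i v - v = (l : ℚ_[l]) ^ M • v') →
    ∃ σ : Gal F, (∀ i, ρA i σ = g i) ∧ ρB σ = 1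

/-- THEOREM B. If the image of the Galois group is open in the unitary groups, all Tate classes on
products of powers of new Jacobians and a CM torus are algebraic. -/
def TateSU_stmt (C : (d : ℕ) → (n : ℕ) → (Fin (n + 1) → ℕ) → Prop) : Prop :=
  ∀ (W : Type) [NormedAddCommGroup W] [NormedSpace ℂ W] [FiniteDimensional ℂ W]
    (Lam : AddSubgroup W), IsLattice Lam → ∀ D : SJPow W Lam, D.All C →
  ∀ (F : Type) [Field F] [NumberField F] [IsGalois ℚ F] (ι : F →+* ℂ), Split D.cm ι →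
    (∀ i, ∃ x : F, ι x = zt (D.d i)) →
  ∀ (l : ℕ) [Fact l.Prime] (ρ : Gal F →* Module.End ℚ_[l] (VQ Lam l))
    (ρA : ∀ i, Gal F →* Module.End ℚ_[l] (VQ (D.L i) l))
    (ρB : Gal F →* Module.End ℚ_[l] (VQ D.LB l)), IsGal D ι l ρ ρA ρB → IsGalT D l ρA →
    BigImage D l ρA ρB →
  ∀ (a : ℕ) (Ξ : ExteriorAlgebra ℚ_[l] (VQ Lam l)), Ξ ∈ (⋀[ℚ_[l]]^(2 * a) (VQ Lam l) :
      Submodule ℚ_[l] (ExteriorAlgebra ℚ_[l] (VQ Lam l))) →
    PotTate ρ a Ξ → AlgQ Lam l Ξ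

end

end Pool.Agent.SJ
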