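import Pool.Agent.helper39.SJ.TQDefs
import Pool.Agent.helper47.SJ.SpecE
import Pool.Agent.helper39.HC.TTSpec2

/-!
# Project sj, part TQ (helper39): Tate classes. Specification

Goals: `TateDet_stmt C` from `Det_stmt C` (theorem A), `TateSU_stmt C` from `SU_stmt C` (theorem B); see `TQDefs.lean`.

Every statement `TQXX_stmt` is proved in `Pool/Agent/<seat>/SJ/TQXX.lean`, `import Pool.Agent.helper39.SJ.TQSpec`,
`namespace Pool.Agent.SJ`, `open scoped ComplexConjugate TensorProduct NumberField`,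
`open Pool.Agent.HC Pool.Agent.HC.SJ Pool.Agent.HC.Tate`, `open NumberField`,
`theorem TQXX (h : TQYY_stmt) ... : TQXX_stmt` (any other statement of this file, of SpecE, SpecP, ZSpec, TTSpec,
TSpec may be a hypothesis, not circularly), auxiliary lemmas prefixed `TQXX_`, no sorry, no double quotes, never
induction on `Alg`.

## The proof

`Ξ = ∑ r_j c_j`, `r_j ∈ ℚ_l` linearly independent over `ℚ`, `c_j` integral classes. Rational operators act on the `c_j`.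
Theorem A: `P` a prime with trivial stabiliser, `σ` a Frobenius at `P`, acting on the determinant of `V_l(A_i)` as
`Q_i(ζ)` and on `V_l(B)` as `t`; `n = e_i n_i` a common multiple of the dimensions. `ρ_i(σ)^n = Q_i(ζ)^(e_i) u_i` with
`u_i` of determinant one, so on the determinant part `σ^n` acts as the rational operator `(Q_i(ζ)^(e_i), t^n)`. So
`(Q_i(ζ)^(e_i), t^n)^N c_j = N(P)^(a n N) c_j`; the valuations at `P` of the eigenvalues of the coordinates of `c_j` give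
`∑ (hodge number of the block) / n_i + #(letters of B in the types) = a`, which says that `c_j` is killed by the
derivation `Z` which is `i (2 h / n_i - 1)` on the block with Hodge number `h`. The complex structure is `Z` plus an
operator of trace zero on every block, so `c_j` is a Hodge class, and `Det_stmt` applies.
Theorem B: `n_i`-th powers as above, `u_i` in the unitary group and in a compact group; a power `u_i^k` is close to
`1` and so in the image of the Galois group.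
-/

namespace Pool.Agent.SJ

open scoped ComplexConjugate TensorProduct NumberField
open Pool.Agent.HC Pool.Agent.HC.SJ Pool.Agent.HC.Tate
open NumberField

noncomputable section

/-! ## A. Classes and rational operators -/

variable {W : Type} [NormedAddCommGroup W] [NormedSpace ℂ W]

/-- the same rational operator, over `ℝ` and over `ℚ_l` -/
def CompatQ (Lam : AddSubgroup W) (l : ℕ) [Fact l.Prime] (A : W →ₗ[ℝ] W)
    (B : VQ Lam l →ₗ[ℚ_[l]] VQ Lam l) : Prop :=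
  ∃ (m : ℕ) (h : Lam →+ Lam), m ≠ 0 ∧ (∀ w : Lam, (m : ℝ) • A (w : W) = (h w : W)) ∧
    ∀ w : Lam, (m : ℚ_[l]) • B (jQ Lam l w) = jQ Lam l (h w)

/-- `Ξ = ∑ r_j c_j`, `r_j ∈ ℚ_l` linearly independent over `ℚ`, `c_j` integral of degree `k` -/
structure Dec (Lam : AddSubgroup W) (l : ℕ) [Fact l.Prime] (k : ℕ)
    (Ξ : ExteriorAlgebra ℚ_[l] (VQ Lam l)) {m : ℕ} (r : Fin m → ℚ_[l])
    (c : Fin m → ExteriorAlgebra ℤ Lam) : Prop where
  ind : LinearIndependent ℚ r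
  deg : ∀ j, c j ∈ (⋀[ℤ]^k Lam : Submodule ℤ (ExteriorAlgebra ℤ Lam))
  sum : Ξ = ∑ j, r j • toQ Lam l (c j)

/-- TQA1. The lattice spans. `Lam` has a `ℤ`-basis `b` (see `KF1_fin` of `helper47/SJ/KF1.lean` for the lattice facts, or TA5), `jQ b`
is a `ℚ_l`-basis of `VQ`; `Ξ` is a combination of products of `k` vectors, so of the products `jQ b_{I_1} ... jQ b_{I_k}`:
`Ξ = ∑_I x_I ∏ jQ b_I`. The `ℚ`-span of the finitely many `x_I` has a `ℚ`-basis `r_j`; `x_I = ∑_j q_{Ij} r_j`; common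
denominator `D`, replace `r_j` by `r_j / D`; `c_j = ∑_I (D q_{Ij}) ∏ b_I`. -/
def TQA1_stmt : Prop := ∀ (W : Type) [NormedAddCommGroup W] [NormedSpace ℂ W]
  [FiniteDimensional ℂ W] (Lam : AddSubgroup W), IsLattice Lam → ∀ (l : ℕ) [Fact l.Prime] (k : ℕ)
  (Ξ : ExteriorAlgebra ℚ_[l] (VQ Lam l)),
  Ξ ∈ (⋀[ℚ_[l]]^k (VQ Lam l) : Submodule ℚ_[l] (ExteriorAlgebra ℚ_[l] (VQ Lam l))) →
  ∃ (m : ℕ) (r : Fin m → ℚ_[l]) (c : Fin m → ExteriorAlgebra ℤ Lam), Dec Lam l k Ξ r c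

/-- TQA2. Separation. With a `ℤ`-basis `b` of `Lam` (an `ℝ`-basis of `W`), `b*` the dual coordinates: for `I : Fin k → Fin N` the
functional `pair_I` (`ExteriorAlgebra.liftAlternating` of the determinant form of the `b*_{I_i}`, in degree `k`, as in
`pair`) exists over `ℤ`, `ℚ_l`, `ℝ` and is compatible with `toQ`, `toR` (check on products of vectors). So
`0 = ∑ r_j pair_I(c_j)`, `pair_I(c_j) ∈ ℤ`, so `pair_I(c_j) = 0` for all `j`, `I`, and the real forms `pair_I` (all `k`) separate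
the elements of the exterior algebra of `W` (TA6; or EC2-like expansions), and of `VQ`: second part. -/
def TQA2_stmt : Prop := ∀ (W : Type) [NormedAddCommGroup W] [NormedSpace ℂ W]
  [FiniteDimensional ℂ W] (Lam : AddSubgroup W), IsLattice Lam → ∀ (l : ℕ) [Fact l.Prime] (m : ℕ)
  (r : Fin m → ℚ_[l]) (c : Fin m → ExteriorAlgebra ℤ Lam),
  (LinearIndependent ℚ r → ∑ j, r j • toQ Lam l (c j) = 0 → ∀ j, toR Lam (c j) = 0) ∧
  ∀ c : ExteriorAlgebra ℤ Lam, toR Lam c = 0 ↔ toQ Lam l c = 0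

/-- TQA3. Naturality. (Algebra homomorphisms `ExteriorAlgebra ℤ Lam → ...` agreeing on vectors; restrict scalars to `ℤ`,
`ExteriorAlgebra.hom_ext`.) (1) over `ℝ`, (2) over `ℚ_l`, (3) degrees, (4) rationality (`c` is an integral combination of
products of `k` vectors). -/
def TQA3_stmt : Prop :=
  (∀ (W W' : Type) [NormedAddCommGroup W] [NormedSpace ℂ W] [NormedAddCommGroup W']
    [NormedSpace ℂ W'] (Lam : AddSubgroup W) (Lam' : AddSubgroup W') (h : Lam →+ Lam')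
    (A : W →ₗ[ℝ] W'), (∀ w : Lam, A (w : W) = (h w : W')) → ∀ c : ExteriorAlgebra ℤ Lam,
    ExteriorAlgebra.map A (toR Lam c) = toR Lam' (ExteriorAlgebra.map h.toIntLinearMap c)) ∧
  (∀ (W W' : Type) [NormedAddCommGroup W] [NormedSpace ℂ W] [NormedAddCommGroup W']
    [NormedSpace ℂ W'] (Lam : AddSubgroup W) (Lam' : AddSubgroup W') (h : Lam →+ Lam')
    (l : ℕ) [Fact l.Prime] (B : VQ Lam l →ₗ[ℚ_[l]] VQ Lam' l),
    (∀ w : Lam, B (jQ Lam l w) = jQ Lam' l (h w)) → ∀ c : ExteriorAlgebra ℤ Lam,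
    ExteriorAlgebra.map B (toQ Lam l c) = toQ Lam' l (ExteriorAlgebra.map h.toIntLinearMap c)) ∧
  (∀ (W : Type) [NormedAddCommGroup W] [NormedSpace ℂ W] (Lam : AddSubgroup W) (k : ℕ)
    (c : ExteriorAlgebra ℤ Lam), c ∈ (⋀[ℤ]^k Lam : Submodule ℤ (ExteriorAlgebra ℤ Lam)) →
    toR Lam c ∈ (⋀[ℝ]^k W : Submodule ℝ (ExteriorAlgebra ℝ W)) ∧ IsRatCl Lam k (toR Lam c) ∧
    ∀ (l : ℕ) [Fact l.Prime], toQ Lam l c ∈
      (⋀[ℚ_[l]]^k (VQ Lam l) : Submodule ℚ_[l] (ExteriorAlgebra ℚ_[l] (VQ Lam l))))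

/-- TQA4. Transfer. `m • A = h` on `Lam`, so `map h c_j` has images `m^k map A (toR c_j)` and `m^k map B (toQ c_j)` (degree `k`:
multiplication by `m` on the vectors is `m^k` on the class); `∑ r_j (toQ (q' map h c_j - m^k p c_j)) = 0` if `κ = p / q'`,
TQA2. Second part: `c = ∑ c_i` (graded components); `toR c_i = 0` for `i ≠ k`, so `toQ c_i = 0` (TQA2 (2)); for `c_k` as before, with
TQA2 (2) from `ℝ` to `ℚ_l`. -/
def TQA4_stmt : Prop := ∀ (W : Type) [NormedAddCommGroup W] [NormedSpace ℂ W]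
  [FiniteDimensional ℂ W] (Lam : AddSubgroup W), IsLattice Lam → ∀ (l : ℕ) [Fact l.Prime] (k : ℕ)
  (A : W →ₗ[ℝ] W) (B : VQ Lam l →ₗ[ℚ_[l]] VQ Lam l), CompatQ Lam l A B → ∀ κ : ℚ,
  (∀ (Ξ : ExteriorAlgebra ℚ_[l] (VQ Lam l)) (m : ℕ) (r : Fin m → ℚ_[l])
    (c : Fin m → ExteriorAlgebra ℤ Lam), Dec Lam l k Ξ r c →
    ExteriorAlgebra.map B Ξ = (κ : ℚ_[l]) • Ξ →
    ∀ j, ExteriorAlgebra.map A (toR Lam (c j)) = (κ : ℝ) • toR Lam (c j)) ∧
  (∀ c : ExteriorAlgebra ℤ Lam, toR Lam c ∈ (⋀[ℝ]^k W : Submodule ℝ (ExteriorAlgebra ℝ W)) →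
    ExteriorAlgebra.map A (toR Lam c) = (κ : ℝ) • toR Lam c →
    ExteriorAlgebra.map B (toQ Lam l c) = (κ : ℚ_[l]) • toQ Lam l c)

/-- TQB1. Calculus of `CompatQ`. (1) identity, (2) composition, (3) sum, (4) rational multiples, (5) inverses (`h` is injective on
the free module `Lam` of finite rank, so its image has finite index: `adj`, determinant of the matrix of `h` in a
`ℤ`-basis), (6) uniqueness, (7) complex linear maps respecting the lattice. -/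
def TQB1_stmt : Prop := ∀ (W : Type) [NormedAddCommGroup W] [NormedSpace ℂ W]
  [FiniteDimensional ℂ W] (Lam : AddSubgroup W), IsLattice Lam → ∀ (l : ℕ) [Fact l.Prime],
  CompatQ Lam l LinearMap.id LinearMap.id ∧
  (∀ (A A' : W →ₗ[ℝ] W) (B B' : VQ Lam l →ₗ[ℚ_[l]] VQ Lam l), CompatQ Lam l A B →
    CompatQ Lam l A' B' → CompatQ Lam l (A ∘ₗ A') (B ∘ₗ B') ∧ CompatQ Lam l (A + A') (B + B') ∧
      (∀ q : ℚ, CompatQ Lam l ((q : ℝ) • A) ((q : ℚ_[l]) • B)) ∧ (A = A' ↔ B = B')) ∧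
  (∀ (A A' : W →ₗ[ℝ] W) (B : VQ Lam l →ₗ[ℚ_[l]] VQ Lam l), CompatQ Lam l A B →
    A ∘ₗ A' = LinearMap.id → ∃ B' : VQ Lam l →ₗ[ℚ_[l]] VQ Lam l, CompatQ Lam l A' B' ∧
      B ∘ₗ B' = LinearMap.id ∧ B' ∘ₗ B = LinearMap.id) ∧
  (∀ (A : W →ₗ[ℂ] W) (h : ∀ w ∈ Lam, A w ∈ Lam),
    CompatQ Lam l (A.restrictScalars ℝ) (indQ l (resL A h)))

/-- operators of `W` acting on the factors -/
def TopR {Lam : AddSubgroup W} (D : SJPow W Lam)
    (Ai : ∀ i, (Idx (D.d i) (D.μ i) → ℂ) →ₗ[ℝ] (Idx (D.d i) (D.μ i) → ℂ)) (AB : D.B →ₗ[ℝ] D.B)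
    (A : W →ₗ[ℝ] W) : Prop :=
  (∀ i c w, A (D.p i c w) = D.p i c (Ai i w)) ∧ ∀ w, A (D.q w) = D.q (AB w)

/-- operators of `V_l` acting on the factors -/
def TopQ {Lam : AddSubgroup W} (D : SJPow W Lam) (l : ℕ) [Fact l.Prime]
    (Bi : ∀ i, Module.End ℚ_[l] (VQ (D.L i) l)) (BB : Module.End ℚ_[l] (VQ D.LB l))
    (B : Module.End ℚ_[l] (VQ Lam l)) : Prop :=
  (∀ i c v, B (indQ l (resL (D.p i c) (D.plat i c)) v) =
    indQ l (resL (D.p i c) (D.plat i c)) (Bi i v)) ∧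
  ∀ v, B (indQ l (resL D.q D.qlat) v) = indQ l (resL D.q D.qlat) (BB v)

/-- TQB2. Operators on the product. The map `(∏_i ∏_c W_i) × B → W` is an isomorphism and maps the product lattice onto a
sublattice of finite index of `Lam` (`KF1_fin`), so also `∏ VQ (L_i) × VQ LB → VQ Lam` is an isomorphism. (1), (2) existence,
(3), (4) uniqueness, (5) compatibility. -/
def TQB2_stmt : Prop := ∀ (W : Type) [NormedAddCommGroup W] [NormedSpace ℂ W]
  [FiniteDimensional ℂ W] (Lam : AddSubgroup W), IsLattice Lam → ∀ (D : SJPow W Lam) (l : ℕ)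
  [Fact l.Prime],
  (∀ Ai AB, ∃ A, TopR D Ai AB A) ∧ (∀ Bi BB, ∃ B, TopQ D l Bi BB B) ∧
  (∀ Ai AB A A', TopR D Ai AB A → TopR D Ai AB A' → A = A') ∧
  (∀ Bi BB B B', TopQ D l Bi BB B → TopQ D l Bi BB B' → B = B') ∧
  ∀ Ai AB A Bi BB B, TopR D Ai AB A → TopQ D l Bi BB B →
    (∀ i, CompatQ (D.L i) l (Ai i) (Bi i)) → CompatQ D.LB l AB BB → CompatQ Lam l A B

/-! ## C. Determinants and the Frobenius -/

section det
variable {d : ℕ} {n : ℕ} {μ : Fin (n + 1) → ℕ} {L : AddSubgroup (Idx d μ → ℂ)}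

/-- `Q(ζ_d)` on `V_l` -/
def polQ (h : ∀ w ∈ L, zact d μ (zt d) w ∈ L) (l : ℕ) [Fact l.Prime] (Q : Polynomial ℤ) :
    VQ L l →ₗ[ℚ_[l]] VQ L l := Polynomial.aeval (ztQ h l : Module.End ℚ_[l] (VQ L l)) Q

/-- `Q(ζ_d)` on `W` -/
def polR (d : ℕ) {n : ℕ} (μ : Fin (n + 1) → ℕ) (Q : Polynomial ℤ) :
    (Idx d μ → ℂ) →ₗ[ℝ] (Idx d μ → ℂ) :=
  (Polynomial.aeval (zact d μ (zt d) : Module.End ℂ (Idx d μ → ℂ)) Q : Module.End ℂ _).restrictScalars ℝ

end det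

/-- TQC1. `Q(ζ)` is compatible (TQB1: sums and powers), acts on the coordinate `s` as `Q(ζ^{s.r})`; if `|Q(x)|² = q^n` at the primitive roots
then `Q(X) Q(X^{d-1}) - q^n` vanishes at all `ζ^{s.r}` (`conj (ζ^r) = (ζ^r)^{d-1}`), so `Q(ζ)` is invertible over `ℝ` and (TQB1) over `ℚ_l`. -/
def TQC1_stmt : Prop := ∀ (d n : ℕ) (μ : Fin (n + 1) → ℕ) (a : Fin (n + 1) → ℂ)
  (L : AddSubgroup (Idx d μ → ℂ)), IsCov d μ a → ∀ (hJ : IsJac d μ a L) (l : ℕ) [Fact l.Prime]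
  (Q : Polynomial ℤ),
  CompatQ L l (polR d μ Q) (polQ hJ.stab l Q) ∧
  (∀ w s, polR d μ Q w s = Polynomial.aeval (zt d ^ (s.r : ℕ)) Q * w s) ∧
  (∀ Q' : Polynomial ℤ, polQ hJ.stab l (Q * Q') = polQ hJ.stab l Q ∘ₗ polQ hJ.stab l Q' ∧
    polR d μ (Q * Q') = polR d μ Q ∘ₗ polR d μ Q') ∧
  ∀ q : ℕ, 0 < q → (∀ x : ℂ, IsPrimitiveRoot x d →
    Polynomial.aeval x Q * conj (Polynomial.aeval x Q) = (q : ℂ) ^ n) →
    polQ hJ.stab l Q ∘ₗ polQ hJ.stab l (Q.comp (Polynomial.X ^ (d - 1))) =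
      (q : ℚ_[l]) ^ n • LinearMap.id ∧
    polQ hJ.stab l (Q.comp (Polynomial.X ^ (d - 1))) ∘ₗ polQ hJ.stab l Q =
      (q : ℚ_[l]) ^ n • LinearMap.id ∧
    polR d μ Q ∘ₗ polR d μ (Q.comp (Polynomial.X ^ (d - 1))) = (q : ℝ) ^ n • LinearMap.id

/-- TQC2. Calculus of determinants. (1) products, (2) powers, (3) `P(ζ)` has determinant `P^n` (`z (P(ζ) v) = P(c) z(v)` for an
eigenfunctional), (4) cancellation: `u ∘ P(ζ) = g`, `P(ζ)` invertible: then `z(v) = P(c) z(P(ζ)^{-1} v)`; if `P(c) = 0` all `z = 0` and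
`n > 0`. No dimension count is needed. -/
def TQC2_stmt : Prop := ∀ (d n : ℕ) (μ : Fin (n + 1) → ℕ) (L : AddSubgroup (Idx d μ → ℂ))
  (h : ∀ w ∈ L, zact d μ (zt d) w ∈ L) (l : ℕ) [Fact l.Prime], 0 < n →
  (∀ g g' Q Q', HasDet h l g Q → HasDet h l g' Q' → HasDet h l (g ∘ₗ g') (Q * Q')) ∧
  (∀ (g : Module.End ℚ_[l] (VQ L l)) Q (k : ℕ), HasDet h l g Q → HasDet h l (g ^ k) (Q ^ k)) ∧
  (∀ P, HasDet h l (polQ h l P) (P ^ n)) ∧
  ∀ (g u s : VQ L l →ₗ[ℚ_[l]] VQ L l) P, HasDet h l g (P ^ n) → u ∘ₗ polQ h l P = g →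
    polQ h l P ∘ₗ s = LinearMap.id → s ∘ₗ polQ h l P = LinearMap.id → HasDet h l u 1

/-- TQC3. The Frobenius on the determinant part. `B` acts by `Q_i(ζ)^(e_i)` on the factors and by `f^n` on `VQ LB` (TQB2; `CompatQ`
by TQC1 and, on `B`: `t` maps `ℚ LB` to itself (TA2 or `lat` of `CMData`), so `m • AB` maps `LB` to `LB` for some `m ≠ 0`, and
`IsEnd`). `g_i^n = u_i Q_i(ζ)^(e_i)`, `u_i = g_i^n Q_i(ζ)^(-e_i)` has determinant 1 (TQC1, TQC2: `(Q_i^(e_i))^(n_i) = Q_i^n`); `U` with factors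
`u_i`, `1` (TQB2); `R^n = B U`, `B` and `U` commute, `U^N` has the factors `u_i^N` of determinant 1, so it fixes `Ξ` (`DetPart`);
`R^(nN) = B^N U^N`. -/
def TQC3_stmt : Prop := ∀ (W : Type) [NormedAddCommGroup W] [NormedSpace ℂ W]
  [FiniteDimensional ℂ W] (Lam : AddSubgroup W), IsLattice Lam → ∀ (D : SJPow W Lam) (l : ℕ)
  [Fact l.Prime] (g : ∀ i, Module.End ℚ_[l] (VQ (D.L i) l)) (f : Module.End ℚ_[l] (VQ D.LB l))
  (R : Module.End ℚ_[l] (VQ Lam l)), TopQ D l g f R →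
  ∀ (q : ℕ) (Q : Fin D.k → Polynomial ℤ) (t : ∀ j, D.cm.K j), 0 < q →
  (∀ i, HasDet (D.jac i).stab l (g i) (Q i)) →
  (∀ i, ∀ x : ℂ, IsPrimitiveRoot x (D.d i) →
    Polynomial.aeval x (Q i) * conj (Polynomial.aeval x (Q i)) = (q : ℂ) ^ D.n i) →
  IsEnd D.cm l t f → ∀ (n : ℕ) (e : Fin D.k → ℕ), 0 < n → (∀ i, e i * D.n i = n) →
  ∀ (AB : D.B →ₗ[ℝ] D.B) (A : W →ₗ[ℝ] W), (∀ w w', IsMul D.cm t w w' → AB w = w') →
  TopR D (fun i => polR (D.d i) (D.μ i) (Q i ^ e i)) ((AB : Module.End ℝ D.B) ^ n) A →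
  ∃ B : Module.End ℚ_[l] (VQ Lam l), CompatQ Lam l A B ∧
    TopQ D l (fun i => polQ (D.jac i).stab l (Q i ^ e i)) (f ^ n) B ∧
    ∀ Ξ, DetPart D l Ξ → ∀ N : ℕ,
      ExteriorAlgebra.map (B ^ N) Ξ = ExteriorAlgebra.map (R ^ (n * N)) Ξ

/-- TQC4. Good primes and their Frobenius elements: `TT4` (applied to the exceptional set and the primes containing `l`, finite
in number), `TTG1`, `TTG2` (`IsFrobAt` of `TTDefs.lean` is `IsFrobOver`, see `Pool/Agent/helper39/HC/TateBridge.lean`). -/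
def TQC4_stmt : Prop := ∀ (F : Type) [Field F] [NumberField F] [IsGalois ℚ F] (l : ℕ)
  [Fact l.Prime] (p : Ideal (𝓞 F) → Prop), AlmostAll F p → ∃ P : Ideal (𝓞 F), P.IsPrime ∧ P ≠ ⊥ ∧
  (l : 𝓞 F) ∉ P ∧
  (∀ σ : F ≃ₐ[ℚ] F, P.comap (RingOfIntegers.mapRingHom (σ : F →+* F)) = P → σ = 1) ∧ p P ∧
  ∃ σ : Gal F, IsFrobOver P σ ∧ chi l σ = (Ideal.absNorm P : ℚ_[l])

/-! ## D. Hodge type from the valuations -/

/-- TQD1. Valuations at `P`. The multiplicity of `P` in `(y_i)` is `w i 1` (`σ⁻¹ P = P` only for `σ = 1`; the `σ⁻¹ P` are prime), in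
`(N(P)) = ∏ σ⁻¹ P` (TT14a) it is 1. -/
def TQD1_stmt : Prop := ∀ (F : Type) [Field F] [NumberField F] [IsGalois ℚ F]
  (P : Ideal (𝓞 F)), P.IsPrime → P ≠ ⊥ →
  (∀ σ : F ≃ₐ[ℚ] F, P.comap (RingOfIntegers.mapRingHom (σ : F →+* F)) = P → σ = 1) →
  ∀ (m N M : ℕ) (y : Fin m → 𝓞 F) (w : Fin m → (F ≃ₐ[ℚ] F) → ℕ),
  (∀ i, Ideal.span {y i} = ∏ σ : F ≃ₐ[ℚ] F,
    P.comap (RingOfIntegers.mapRingHom (σ : F →+* F)) ^ w i σ) →
  ∏ i, y i ^ N = (Ideal.absNorm P : 𝓞 F) ^ M → N * ∑ i, w i 1 = M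

/-- TQD0. Hodge numbers: `h(x) + h(conj x) = n` (`KJO`: the number of coordinates in every block is `n`; the block `r` of `JT` has the
`inl s`, `s.r = r` and the `inr s`, `s.r = -r`), and `hdim` at `ζ^r` is `hn`. -/
def TQD0_stmt : Prop := ∀ (d n : ℕ) (μ : Fin (n + 1) → ℕ) (a : Fin (n + 1) → ℂ)
  (L : AddSubgroup (Idx d μ → ℂ)), IsCov d μ a → IsJac d μ a L →
  (∀ x : ℂ, IsPrimitiveRoot x d → hdim d μ x + hdim d μ (conj x) = n) ∧
  ∀ r : Un d, hdim d μ (zt d ^ (r.1 : ℕ)) = (JT d μ L).hn r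

/-- `F(2 h / n - 1)` on the coordinate `s`, `h` the Hodge number of its block -/
def ndiag (d : ℕ) {n : ℕ} (μ : Fin (n + 1) → ℕ) (F : ℝ → ℂ) :
    (Idx d μ → ℂ) →ₗ[ℝ] (Idx d μ → ℂ) :=
  (LinearMap.pi fun s => F (2 * (hdim d μ (zt d ^ (s.r : ℕ)) : ℝ) / n - 1) •
    (LinearMap.proj s : (Idx d μ → ℂ) →ₗ[ℂ] ℂ)).restrictScalars ℝ

/-- TQD2. Weights. Functionals of `W` (through `bij`): `z = JT`-functionals of the factors `A_i` (copy `c`), eigenfunctionals of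
`A` with eigenvalue `Q_i(ζ^r)^(e_i)`, `r` the block; on `B` the coordinates `φ ∈ Φ_j` and their conjugates, eigenvalue `φ(t_j)^n` for
all embeddings `φ` of `K_j`. The determinants of `2a` of these functionals separate `⋀^{2a}`. If `pair (detForm z_β) x ≠ 0` the
product of the `N`-th powers of the eigenvalues is `q^(a n N)`, `q = N(P)` (`pair η (map A x) = pair (η ∘ A) x`); they are
`ι(y_β)`, `y_β ∈ 𝓞 F` (`Split`, `ζ ∈ F`), with multiplicity of `P`: `e_i h_r`, resp. `n [φ ∈ Φ_j]` (`IsDetFrb`, `IsFrb`, TQD1), so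
`∑_β ν_β = a` with `ν = h_r / n_i`, resp. `[φ ∈ Φ_j]`. `Z` acts on the functional `z_β` by `F(2 ν_β - 1)` (`conj F(y) = F(-y)` for both `F`, and TQD0),
so `dE Z` (EA2) multiplies the coordinate by `∑ i (2 ν_β - 1) = 0`, `map Z` by `∏ exp(iθ(2 ν_β - 1)) = 1`. -/
def TQD2_stmt : Prop := ∀ (W : Type) [NormedAddCommGroup W] [NormedSpace ℂ W]
  [FiniteDimensional ℂ W] (Lam : AddSubgroup W), IsLattice Lam → ∀ (D : SJPow W Lam)
  (F : Type) [Field F] [NumberField F] [IsGalois ℚ F] (ι : F →+* ℂ), Split D.cm ι →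
  (∀ i, ∃ x : F, ι x = zt (D.d i)) → ∀ P : Ideal (𝓞 F), P.IsPrime → P ≠ ⊥ →
  (∀ σ : F ≃ₐ[ℚ] F, P.comap (RingOfIntegers.mapRingHom (σ : F →+* F)) = P → σ = 1) →
  ∀ (Q : Fin D.k → Polynomial ℤ) (t : ∀ j, D.cm.K j), IsFrb D.cm ι P 1 t →
  (∀ i, IsDetFrb (D.d i) (D.μ i) ι P (Q i)) → ∀ (n : ℕ) (e : Fin D.k → ℕ), 0 < n →
  (∀ i, e i * D.n i = n) →
  ∀ (AB : D.B →ₗ[ℝ] D.B) (A : W →ₗ[ℝ] W), (∀ w w', IsMul D.cm t w w' → AB w = w') →
  TopR D (fun i => polR (D.d i) (D.μ i) (Q i ^ e i)) ((AB : Module.End ℝ D.B) ^ n) A →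
  ∀ (N a : ℕ), 0 < N → ∀ x ∈ (⋀[ℝ]^(2 * a) W : Submodule ℝ (ExteriorAlgebra ℝ W)),
  ExteriorAlgebra.map ((A : Module.End ℝ W) ^ N) x = (Ideal.absNorm P : ℝ) ^ (a * n * N) • x →
  (∀ Z, TopR D (fun i => ndiag (D.d i) (D.μ i) fun y => Complex.I * y)
      ((Complex.I • (LinearMap.id : D.B →ₗ[ℂ] D.B)).restrictScalars ℝ) Z → dE Z x = 0) ∧
  ∀ (θ : ℝ) (Z : W →ₗ[ℝ] W),
    TopR D (fun i => ndiag (D.d i) (D.μ i) fun y => Complex.exp (θ * y * Complex.I)) (rot θ) Z →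
    ExteriorAlgebra.map Z x = x

/-- TQD3. The operator `AB` exists (`IsMul`): multiplication by `t` on `B`. -/
def TQD3_stmt : Prop := ∀ (B : Type) [NormedAddCommGroup B] [NormedSpace ℂ B]
  [FiniteDimensional ℂ B] (LB : AddSubgroup B) (C : CMData B LB) (t : ∀ j, C.K j),
  ∃ AB : B →ₗ[ℂ] B, (∀ w w', IsMul C t w w' → AB w = w') ∧ ∀ w, IsMul C t w (AB w)

/-- real operators commuting with `ζ_d`, of trace zero on all eigenspaces -/
structure IsTr0 (d : ℕ) {n : ℕ} (μ : Fin (n + 1) → ℕ)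
    (L : (Idx d μ → ℂ) →ₗ[ℝ] (Idx d μ → ℂ)) : Prop where
  comm : ∀ w, L (zact d μ (zt d) w) = zact d μ (zt d) (L w)
  tr : ∀ r : Un d, ∑ i ∈ Finset.univ.filter (fun i => (JT d μ ⊥).bl i = r),
    ev ((JT d μ ⊥).z i ∘ₗ L) ((JT d μ ⊥).w i) = 0

/-- `G` is `L` on the copies of `A_i`, zero on the other factors -/
def Ext0 {Lam : AddSubgroup W} (D : SJPow W Lam) (i : Fin D.k)
    (L : (Idx (D.d i) (D.μ i) → ℂ) →ₗ[ℝ] (Idx (D.d i) (D.μ i) → ℂ)) (G : W →ₗ[ℝ] W) : Prop :=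
  (∀ c w, G (D.p i c w) = D.p i c (L w)) ∧ (∀ i', i' ≠ i → ∀ c w, G (D.p i' c w) = 0) ∧
    ∀ w, G (D.q w) = 0

/-- TQD4. The complex structure. `L_i` = the diagonal operator `2 i h(conj ζ^{s.r}) / n_i` on the coordinate `s`; it commutes with `ζ`, has trace
zero on the blocks (block `r`: `h_r (2 i h_{-r} / n) + h_{-r} conj(2 i h_r / n) = 0`), and kills the class of the curve
(which has nonzero coordinates only at pairs `inl s`, `inr s'` with `s.r = s'.r`: `EB2`, or `ZC2`, `ZC3`: eigenvalues `2 i h_{-r} / n` and its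
conjugate). So it is in `su`. `I • id = Z + ∑_i G_i` (`G_i` the extension of `L_i` by zero; `TQD0`), `EA1` (3), `EA3`. -/
def TQD4_stmt : Prop := ∀ (W : Type) [NormedAddCommGroup W] [NormedSpace ℂ W]
  [FiniteDimensional ℂ W] (Lam : AddSubgroup W), IsLattice Lam → ∀ (D : SJPow W Lam)
  (x : ExteriorAlgebra ℝ W),
  (∀ Z, TopR D (fun i => ndiag (D.d i) (D.μ i) fun y => Complex.I * y)
      ((Complex.I • (LinearMap.id : D.B →ₗ[ℂ] D.B)).restrictScalars ℝ) Z → dE Z x = 0) →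
  D.Kill x → ∀ θ : ℝ, ExteriorAlgebra.map (rot (W := W) θ) x = x

/-- TQD5. The same with operators of trace zero (as TQD4, without the curve). -/
def TQD5_stmt : Prop := ∀ (W : Type) [NormedAddCommGroup W] [NormedSpace ℂ W]
  [FiniteDimensional ℂ W] (Lam : AddSubgroup W), IsLattice Lam → ∀ (D : SJPow W Lam)
  (x : ExteriorAlgebra ℝ W),
  (∀ Z, TopR D (fun i => ndiag (D.d i) (D.μ i) fun y => Complex.I * y)
      ((Complex.I • (LinearMap.id : D.B →ₗ[ℂ] D.B)).restrictScalars ℝ) Z → dE Z x = 0) →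
  (∀ i L G, IsTr0 (D.d i) (D.μ i) L → Ext0 D i L G → dE G x = 0) →
  ∀ θ : ℝ, ExteriorAlgebra.map (rot (W := W) θ) x = x

/-! ## E. The determinant part (theorem A) -/

/-- TQE1. Transvections. `ℚ L` is a vector space over `ℚ(ζ_d)` of dimension `n` (`[ℚ(ζ_d) : ℚ]` = number of `r : Un d`, `2 * card (Idx d μ)` =
`n φ(d)`: `KJO`); let `v_1, ..., v_n ∈ L` be a basis. `N_{k,l',P}`, `k ≠ l'`, `P ∈ ℤ[X]`: linear over `ℚ(ζ_d)` (over `ℝ`, `ℚ_l`), `v_k ↦ P(ζ) v_l'`, `v_j ↦ 0`, `j ≠ k`.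
Square zero, `CompatQ`, `1 + y N` has determinant one (an eigenfunctional is determined by its values on the `v_j`; on
the space of eigenfunctionals the transposed map is unipotent of rank one: `det(z_a + y z_a(P v_l') v_k*)`). The real
operators commuting with `ζ` are the matrices in the basis `v` with entries in `ℝ[ζ]` (real polynomials in `ζ`); those with
trace zero on the blocks have trace zero in `ℝ[ζ]`; off-diagonal entries are in the real span of the `N`, and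
`y (E_ll - E_kk)` is a commutator. -/
def TQE1_stmt : Prop := ∀ (d n : ℕ) (μ : Fin (n + 1) → ℕ) (a : Fin (n + 1) → ℂ)
  (L : AddSubgroup (Idx d μ → ℂ)), IsCov d μ a → ∀ (hJ : IsJac d μ a L) (l : ℕ) [Fact l.Prime],
  ∃ (S : Type) (X : S → ((Idx d μ → ℂ) →ₗ[ℝ] (Idx d μ → ℂ)))
    (Y : S → (VQ L l →ₗ[ℚ_[l]] VQ L l)),
    (∀ s, CompatQ L l (X s) (Y s) ∧ X s ∘ₗ X s = 0 ∧ Y s ∘ₗ Y s = 0 ∧
      ∀ y : ℚ_[l], HasDet hJ.stab l (LinearMap.id + y • Y s) 1) ∧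
    ∀ K : Submodule ℝ ((Idx d μ → ℂ) →ₗ[ℝ] (Idx d μ → ℂ)), (∀ s, X s ∈ K) →
      (∀ A ∈ K, ∀ B ∈ K, A ∘ₗ B - B ∘ₗ A ∈ K) → ∀ A, IsTr0 d μ A → A ∈ K

/-- TQE2. Unipotent operators. `map (1 + y X) x = x` for all rational `y` (TQA4, TQB1), the coefficient of `y` of the polynomial
`map (1 + y X) x` is `dE X x` (products of vectors, EA1), and a polynomial vanishing on `ℚ` is zero. -/
def TQE2_stmt : Prop := ∀ (W : Type) [NormedAddCommGroup W] [NormedSpace ℂ W]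
  [FiniteDimensional ℂ W] (Lam : AddSubgroup W), IsLattice Lam → ∀ (l : ℕ) [Fact l.Prime] (k : ℕ)
  (X : W →ₗ[ℝ] W) (Y : VQ Lam l →ₗ[ℚ_[l]] VQ Lam l), CompatQ Lam l X Y →
  ∀ (Ξ : ExteriorAlgebra ℚ_[l] (VQ Lam l)) (m : ℕ) (r : Fin m → ℚ_[l])
    (c : Fin m → ExteriorAlgebra ℤ Lam), Dec Lam l k Ξ r c →
    (∀ y : ℚ, ExteriorAlgebra.map (LinearMap.id + (y : ℚ_[l]) • Y) Ξ = Ξ) →
    ∀ j, dE X (toR Lam (c j)) = 0

/-- TQE3. The determinant part is killed by the operators of trace zero: the real operators `A` of `A_i` with `dE (Ext0 A) (toR c_j) = 0`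
form a real subspace closed under commutators (EA1, `Ext0` is linear and compatible with products), containing the
`X s` of TQE1: the extension `Y'` of `Y s` by zero (TQB2), `1 + y Y'` has factors `1 + y Y s`, `1`, so it fixes `Ξ`; TQE2. -/
def TQE3_stmt : Prop := ∀ (W : Type) [NormedAddCommGroup W] [NormedSpace ℂ W]
  [FiniteDimensional ℂ W] (Lam : AddSubgroup W), IsLattice Lam → ∀ (D : SJPow W Lam) (l : ℕ)
  [Fact l.Prime] (k : ℕ) (Ξ : ExteriorAlgebra ℚ_[l] (VQ Lam l)) (m : ℕ) (r : Fin m → ℚ_[l])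
  (c : Fin m → ExteriorAlgebra ℤ Lam), Dec Lam l k Ξ r c → DetPart D l Ξ →
  ∀ j i L G, IsTr0 (D.d i) (D.μ i) L → Ext0 D i L G → dE G (toR Lam (c j)) = 0

/-- the datum with multiplicities one as a datum of type `SJData` -/
def SJPow.toData {Lam : AddSubgroup W} (D : SJPow W Lam) (h1 : ∀ i, D.m i = 1) :
    SJData W Lam where
  k := D.k
  d := D.d
  n := D.n
  μ := D.μ
  a := D.a
  cov := D.cov
  L := D.L
  jac := D.jac
  B := D.B
  LB := D.LB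
  latB := D.latB
  cm := D.cm
  p := fun i => D.p i ⟨0, by rw [h1 i]; norm_num⟩
  q := D.q
  bij := by
    have hu : ∀ i (c : Fin (D.m i)), c = ⟨0, by rw [h1 i]; norm_num⟩ := fun i c =>
      Fin.ext (by have h2 := c.2; have h3 := h1 i; show (c : ℕ) = 0; omega)
    have hs : ∀ (i : Fin D.k) (f : Fin (D.m i) → W), ∑ c, f c = f ⟨0, by rw [h1 i]; norm_num⟩ := by
      intro i f
      refine Fintype.sum_eq_single _ fun c hc => absurd (hu i c) hc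
    refine ⟨fun v v' h => ?_, fun w => ?_⟩
    · have h2 := @D.bij.1 (fun i _ => v.1 i, v.2) (fun i _ => v'.1 i, v'.2) (by
        simpa only [hs] using h)
      rw [Prod.mk.injEq] at h2
      refine Prod.ext (funext fun i => ?_) h2.2
      exact congrFun (congrFun h2.1 i) ⟨0, by rw [h1 i]; norm_num⟩
    · obtain ⟨v, hv⟩ := D.bij.2 w
      refine ⟨(fun i => v.1 i ⟨0, by rw [h1 i]; norm_num⟩, v.2), ?_⟩
      rw [← hv]
      simp only [hs]
  plat := fun i w hw => D.plat i _ w hw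
  qlat := D.qlat

/-- TQE4. From the Lie algebra to the group (multiplicities one). `x` is killed by the real operators of trace zero, so its
complexification by the complex ones (on each block separately: `EA4` (1) and conjugation as in `EB3`): diagonal ones give: if
`pair (detForm z_s) x ≠ 0` (`s` a tuple of coordinates), all coordinates of a block occur equally often in `s`, so (a repeated
coordinate gives zero) `s` contains each block of each `A_i` completely or not at all. If `g_i` is in `SL` then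
`pair (detForm z_s) (map G x) = pair (detForm (z_s ∘ G)) x`, and expanding `z ∘ g_i` in the `z` of the same block only tuples with the
same block multiplicities occur: both sides are zero unless `s` is a union of blocks, and then `IsSL.det` gives
`detForm (z_s ∘ G) = detForm z_s`. -/
def TQE4_stmt : Prop := ∀ (W : Type) [NormedAddCommGroup W] [NormedSpace ℂ W]
  [FiniteDimensional ℂ W] (Lam : AddSubgroup W), IsLattice Lam → ∀ (D : SJPow W Lam)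
  (h1 : ∀ i, D.m i = 1) (k : ℕ), ∀ x ∈ (⋀[ℝ]^k W : Submodule ℝ (ExteriorAlgebra ℝ W)),
  (∀ i L G, IsTr0 (D.d i) (D.μ i) L → Ext0 D i L G → dE G x = 0) → (D.toData h1).Inv x

/-- TQE5. THEOREM A. `Dec` (TQA1), `P`, `σ` (TQC4 with `IsGal.frob`), `n = ∏ n_i`, `e_i = n / n_i`, `AB` (TQD3), `A` (TQB2), `B` (TQC3 with `R = ρ σ`,
`q = N(P)`); `map (ρ σ ^ N) Ξ = N(P)^(aN) Ξ` (`PotTate`), iterate `n` times, so `map (B ^ N) Ξ = N(P)^(anN) Ξ`, TQA4 (`CompatQ` of the power: TQB1),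
TQD2, TQE3, TQD5: `toR c_j` is a Hodge class (TQA3), TQE4 and `Det_stmt`: it is in `Alg`. -/
def TQE5_stmt : Prop := ∀ C : (d : ℕ) → (n : ℕ) → (Fin (n + 1) → ℕ) → Prop,
  Det_stmt C → TateDet_stmt C

/-! ## F. Big image (theorem B) -/

/-- real operators commuting with `ζ_d` and killing the class of the curve -/
structure IsU (d : ℕ) {n : ℕ} (μ : Fin (n + 1) → ℕ) (a : Fin (n + 1) → ℂ)
    (L : (Idx d μ → ℂ) →ₗ[ℝ] (Idx d μ → ℂ)) : Prop where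
  comm : ∀ w, L (zact d μ (zt d) w) = zact d μ (zt d) (L w)
  skew : ∀ x : ExteriorAlgebra ℝ (Idx d μ → ℂ), IsClass (clC d μ a) x → dE L x = 0

/-- TQF1. `u(ℚ)` spans `u(ℝ)` (the class of the curve is unique, and rational by hypothesis). In a `ℤ`-basis of `L` the real matrix of `X` is
`∑ y_s X_s`, `y_s ∈ ℝ` linearly independent over `ℚ`, `X_s` integral matrices; the conditions are linear with rational
coefficients (`dE X_s (toR c)` is a rational combination of products of basis vectors), so the `X_s` satisfy them. -/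
def TQF1_stmt : Prop := ∀ (d n : ℕ) (μ : Fin (n + 1) → ℕ) (a : Fin (n + 1) → ℂ)
  (L : AddSubgroup (Idx d μ → ℂ)), IsCov d μ a → IsJac d μ a L →
  (∃ c : ExteriorAlgebra ℤ L, IsClass (clC d μ a) (toR L c)) → ∀ X, IsU d μ a X →
  X ∈ Submodule.span ℝ {X' | IsU d μ a X' ∧ ∀ w ∈ L, X' w ∈ L}

/-- TQF2. `su` is in the span of the commutators of `u`. In the basis of `EB2` the complex operator of `X` is `∑_{2 r < d} slM ν (A_r)`,
`A_r` the block of `X` (because it kills `1 ⊗ x = ∑ w_i ∧ w_{ν i}` and commutes with `ζ`); `A_r` has trace zero, so it is a sum of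
commutators `[A', A'']` of matrices of the block; `slM ν A'` is `X1 + i X2` with `X1, X2` in `u` (as `EB3`, without the trace);
take the real part of `∑ [X1' + i X2', X1'' + i X2'']`. -/
def TQF2_stmt : Prop := ∀ (d n : ℕ) (μ : Fin (n + 1) → ℕ) (a : Fin (n + 1) → ℂ)
  (L : AddSubgroup (Idx d μ → ℂ)), IsCov d μ a → IsJac d μ a L → ∀ X, IsSU d μ a X →
  X ∈ Submodule.span ℝ {X' | ∃ X1 X2, IsU d μ a X1 ∧ IsU d μ a X2 ∧ X' = X1 ∘ₗ X2 - X2 ∘ₗ X1}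

/-- Cayley transform: `G = (1 + s X) (1 - s X)⁻¹`, `G' = G⁻¹` -/
structure IsCay {R V : Type} [Field R] [AddCommGroup V] [Module R V] (X : V →ₗ[R] V) (s : R)
    (G G' : V →ₗ[R] V) : Prop where
  one : G ∘ₗ (LinearMap.id - s • X) = LinearMap.id + s • X
  two : G' ∘ₗ (LinearMap.id + s • X) = LinearMap.id - s • X
  inv : G ∘ₗ G' = LinearMap.id
  inv' : G' ∘ₗ G = LinearMap.id

/-- TQF3. Cayley transforms of integral elements of `u`. `s ∈ ℚ`, `s ∈ l^M ℤ_l`, `M ≥ 1`: the matrix of `X` in a `ℤ`-basis of `L` is integral,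
`det (1 ± s X) ∈ ℚ` is `1` modulo `l` in `ℤ_(l)`, so not zero; `(1 - s X)⁻¹` is over `ℤ_l` (Cramer), `G - 1 = 2 s X (1 - s X)⁻¹`. On the class of the
curve `c` (degree 2, `dE X c = 0`): `map (1 + s X) c = map (1 - s X) c` (`(v + sXv)(w + sXw)` minus `(v - sXv)(w - sXw)` is `2s (Xv w + v Xw)`),
so `map G c = c` over `ℝ`, and over `ℚ_l` by TQA4 (2). -/
def TQF3_stmt : Prop := ∀ (d n : ℕ) (μ : Fin (n + 1) → ℕ) (a : Fin (n + 1) → ℂ)
  (L : AddSubgroup (Idx d μ → ℂ)), IsCov d μ a → ∀ (hJ : IsJac d μ a L) (l : ℕ) [Fact l.Prime]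
  (X : (Idx d μ → ℂ) →ₗ[ℝ] (Idx d μ → ℂ)), IsU d μ a X → (∀ w ∈ L, X w ∈ L) → ∀ (M : ℕ) (s : ℚ),
  1 ≤ M → ‖(s : ℚ_[l])‖ ≤ (l : ℝ)⁻¹ ^ M → ∃ (G G' : (Idx d μ → ℂ) →ₗ[ℝ] (Idx d μ → ℂ))
    (Y Y' : VQ L l →ₗ[ℚ_[l]] VQ L l), IsCay X (s : ℝ) G G' ∧ CompatQ L l G Y ∧ CompatQ L l G' Y' ∧
    Y ∘ₗ Y' = LinearMap.id ∧ Y' ∘ₗ Y = LinearMap.id ∧
    (∀ v, Y (ztQ hJ.stab l v) = ztQ hJ.stab l (Y v)) ∧
    (∀ v, Y' (ztQ hJ.stab l v) = ztQ hJ.stab l (Y' v)) ∧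
    (∀ c : ExteriorAlgebra ℤ L, IsClass (clC d μ a) (toR L c) →
      ExteriorAlgebra.map Y (toQ L l c) = toQ L l c ∧
      ExteriorAlgebra.map Y' (toQ L l c) = toQ L l c) ∧
    ∀ v ∈ latQ L l, (∃ v' ∈ latQ L l, Y v - v = (l : ℚ_[l]) ^ M • v') ∧
      ∃ v' ∈ latQ L l, Y' v - v = (l : ℚ_[l]) ^ M • v'

/-- TQF4. Commutators have determinant one: for fixed `c` the eigenfunctionals with eigenvalue `c` form a space of dimension `≤ n` over
`AlgebraicClosure ℚ_[l]` (a basis of `ℚ L` over `ℚ(ζ_d)`, as in TQE1), on which `Y` acts; the determinants of families of `n`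
eigenfunctionals are multiplied by the determinant of this action, which is multiplicative (if the dimension is `< n`
everything is zero). -/
def TQF4_stmt : Prop := ∀ (d n : ℕ) (μ : Fin (n + 1) → ℕ) (a : Fin (n + 1) → ℂ)
  (L : AddSubgroup (Idx d μ → ℂ)), IsCov d μ a → ∀ (hJ : IsJac d μ a L) (l : ℕ) [Fact l.Prime]
  (Y1 Y1' Y2 Y2' : VQ L l →ₗ[ℚ_[l]] VQ L l),
  (∀ v, Y1 (ztQ hJ.stab l v) = ztQ hJ.stab l (Y1 v)) →
  (∀ v, Y1' (ztQ hJ.stab l v) = ztQ hJ.stab l (Y1' v)) →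
  (∀ v, Y2 (ztQ hJ.stab l v) = ztQ hJ.stab l (Y2 v)) →
  (∀ v, Y2' (ztQ hJ.stab l v) = ztQ hJ.stab l (Y2' v)) →
  Y1 ∘ₗ Y1' = LinearMap.id → Y2 ∘ₗ Y2' = LinearMap.id →
  HasDet hJ.stab l (Y1 ∘ₗ Y2 ∘ₗ Y1' ∘ₗ Y2') 1

/-- TQF5. Real analysis. `G1 j`, `G2 k` Cayley transforms of `X`, `Y` at `s_j`, `s_k`, `s_j → 0`. Let `x` be of degree `k0`, `η` a form; `f(G) = pair η (map G x)` is
a polynomial in the entries of `G`. Fix `k`; as `s_j → 0`: `G1 j = 1 + 2 s_j X + O(s_j²)`, so the commutator is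
`1 + 2 s_j (X - h X h⁻¹) + O(s_j²)`, `h = G2 k`, and its `N`-th power `1 + 2 N s_j (X - h X h⁻¹) + O(s_j²)`; so `dE (X - h X h⁻¹) x = 0`. Divide by `2 s_k` and let
`s_k → 0`: `dE (XY - YX) x = 0` (`dE` is linear in the operator, `h X h⁻¹ = X + 2 s_k [Y, X] + O(s_k²)`). (`HasDerivAt` along the sequence; the
elements of `ExteriorAlgebra ℝ W` are separated by finitely many functionals, `pair η` of products of vectors.) -/
def TQF5_stmt : Prop := ∀ (W : Type) [NormedAddCommGroup W] [NormedSpace ℂ W]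
  [FiniteDimensional ℂ W] (k0 : ℕ), ∀ x ∈ (⋀[ℝ]^k0 W : Submodule ℝ (ExteriorAlgebra ℝ W)),
  ∀ (X Y : W →ₗ[ℝ] W) (N : ℕ) (s : ℕ → ℝ) (G1 G1' G2 G2' : ℕ → (W →ₗ[ℝ] W)), 0 < N →
  (∀ j, s j ≠ 0) → Filter.Tendsto s Filter.atTop (nhds 0) →
  (∀ j, IsCay X (s j) (G1 j) (G1' j)) → (∀ j, IsCay Y (s j) (G2 j) (G2' j)) →
  (∀ j k, ExteriorAlgebra.map
    ((G1 j ∘ₗ G2 k ∘ₗ G1' j ∘ₗ G2' k : Module.End ℝ W) ^ N) x = x) →
  dE (X ∘ₗ Y - Y ∘ₗ X) x = 0

/-- TQF6. Tate classes are killed by `su`. `X`, `X'` in `u(A_i)`, integral; `s_j = l^M' / (1 + l j)`-like rational numbers (`s_j → 0`, `‖s_j‖ ≤ l^{-M'}`,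
`M' = max M 1`); `Y1, Y2` from TQF3; the commutator is in `SU` (TQF4, and it fixes the class of the curve) and close to 1, so
(`BigImage`, identity on the other factors) it is `ρ_i(σ)`, `ρ_i'(σ) = 1`, `ρ_B(σ) = 1`; `χ(σ) = 1` because `σ` fixes the class of the curve
(`IsGalT.curve`; it is not zero: `EB2` and TQA4 or TQA2). So `ρ σ` is the extension of the commutator by the identity (`TQB2` (4)),
`map (ρ σ ^ N) Ξ = Ξ`, TQA4, and TQF5 for the extensions (`Ext0` for `X`, `1` on the other factors for the Cayley transforms)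
gives `dE ([X, X'] extended by 0) (toR c_j) = 0`; TQF1, TQF2. -/
def TQF6_stmt : Prop := ∀ (W : Type) [NormedAddCommGroup W] [NormedSpace ℂ W]
  [FiniteDimensional ℂ W] (Lam : AddSubgroup W), IsLattice Lam → ∀ (D : SJPow W Lam)
  (F : Type) [Field F] [NumberField F] (ι : F →+* ℂ) (l : ℕ) [Fact l.Prime]
  (ρ : Gal F →* Module.End ℚ_[l] (VQ Lam l)) (ρA : ∀ i, Gal F →* Module.End ℚ_[l] (VQ (D.L i) l))
  (ρB : Gal F →* Module.End ℚ_[l] (VQ D.LB l)), IsGal D ι l ρ ρA ρB → IsGalT D l ρA →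
  BigImage D l ρA ρB → ∀ (k a : ℕ) (Ξ : ExteriorAlgebra ℚ_[l] (VQ Lam l)) (m : ℕ)
  (r : Fin m → ℚ_[l]) (c : Fin m → ExteriorAlgebra ℤ Lam), Dec Lam l k Ξ r c → PotTate ρ a Ξ →
  ∀ j, D.Kill (toR Lam (c j))

/-- TQF7. Matrices over `ℤ_l`: an automorphism `u` of `VQ` with `u`, `u⁻¹` preserving the lattice has a power congruent to `1` modulo `l^M`
(`GL_N(ℤ/l^M)` is finite), the same power for finitely many. -/
def TQF7_stmt : Prop := ∀ (W : Type) [NormedAddCommGroup W] [NormedSpace ℂ W]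
  [FiniteDimensional ℂ W] (Lam : AddSubgroup W), IsLattice Lam → ∀ (l : ℕ) [Fact l.Prime] (M : ℕ),
  ∃ K : ℕ, 0 < K ∧ ∀ u u' : Module.End ℚ_[l] (VQ Lam l), u * u' = 1 → u' * u = 1 →
    (∀ v ∈ latQ Lam l, u v ∈ latQ Lam l) → (∀ v ∈ latQ Lam l, u' v ∈ latQ Lam l) →
    ∀ v ∈ latQ Lam l, ∃ v' ∈ latQ Lam l, (u ^ K) v - v = (l : ℚ_[l]) ^ M • v'

/-- TQF8. The Frobenius (theorem B). As TQC3, with `g_i = ρ_i(σ)`, `χ(σ) = q` prime to `l`: `u_i = g_i^n Q_i(ζ)^(-e_i)` has determinant 1, fixes the class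
of the curve (`g_i` multiplies it by `q`, `Q_i(ζ)` by `|Q_i|² = q^(n_i)`: coordinates, TQA4 (2)), and `u_i`, `u_i⁻¹` preserve the lattice (`g_i`, `g_i⁻¹ =
ρ_i(σ⁻¹)`, `Q_i(ζ)`, and `Q_i(ζ)⁻¹ = q^(-n_i) Q_i(ζ^{d-1})`, TQC1). `K` from TQF7 (a common multiple for all `i`): `u_i^K` is `ρ_i(τ)` for some `τ`, with
`ρ_B(τ) = 1`, `χ(τ) = 1` if there is a factor (if there is none, `U = 1`). `U` (factors `u_i`, `1`), `ρ(σ)^n = B U`, `U^K = ρ(τ)`, and
`map (U^(K N0)) Ξ = Ξ` with `N0` from `PotTate`; `N = K N0`: `map (B^N) Ξ = map (ρ(σ)^(nN)) Ξ = q^(anN) Ξ`. -/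
def TQF8_stmt : Prop := ∀ (W : Type) [NormedAddCommGroup W] [NormedSpace ℂ W]
  [FiniteDimensional ℂ W] (Lam : AddSubgroup W), IsLattice Lam → ∀ (D : SJPow W Lam)
  (F : Type) [Field F] [NumberField F] (ι : F →+* ℂ) (l : ℕ) [Fact l.Prime]
  (ρ : Gal F →* Module.End ℚ_[l] (VQ Lam l)) (ρA : ∀ i, Gal F →* Module.End ℚ_[l] (VQ (D.L i) l))
  (ρB : Gal F →* Module.End ℚ_[l] (VQ D.LB l)), IsGal D ι l ρ ρA ρB → IsGalT D l ρA →
  BigImage D l ρA ρB → ∀ (a : ℕ) (Ξ : ExteriorAlgebra ℚ_[l] (VQ Lam l)), PotTate ρ a Ξ →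
  ∀ (σ : Gal F) (q : ℕ) (Q : Fin D.k → Polynomial ℤ) (t : ∀ j, D.cm.K j), 0 < q → ¬ l ∣ q →
  chi l σ = (q : ℚ_[l]) →
  (∀ i, HasDet (D.jac i).stab l (ρA i σ) (Q i)) →
  (∀ i, ∀ x : ℂ, IsPrimitiveRoot x (D.d i) →
    Polynomial.aeval x (Q i) * conj (Polynomial.aeval x (Q i)) = (q : ℂ) ^ D.n i) →
  IsEnd D.cm l t (ρB σ) → ∀ (n : ℕ) (e : Fin D.k → ℕ), 0 < n → (∀ i, e i * D.n i = n) →
  ∀ (AB : D.B →ₗ[ℝ] D.B) (A : W →ₗ[ℝ] W), (∀ w w', IsMul D.cm t w w' → AB w = w') →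
  TopR D (fun i => polR (D.d i) (D.μ i) (Q i ^ e i)) ((AB : Module.End ℝ D.B) ^ n) A →
  ∃ (B : Module.End ℚ_[l] (VQ Lam l)) (N : ℕ), CompatQ Lam l A B ∧ 0 < N ∧
    ExteriorAlgebra.map (B ^ N) Ξ = (q : ℚ_[l]) ^ (a * n * N) • Ξ

/-- TQF9. THEOREM B. As TQE5, with TQF8 instead of TQC3, TQF6 and TQD4 instead of TQE3 and TQD5, and `SU_stmt`. -/
def TQF9_stmt : Prop := ∀ C : (d : ℕ) → (n : ℕ) → (Fin (n + 1) → ℕ) → Prop,
  SU_stmt C → TateSU_stmt C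

end

end Pool.Agent.SJ
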